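import Mathlib

/-!
Discrete point X-rays of convex lattice sets: definitions and the switching lemma.
-/

namespace Pool.Agent.Lib.MP_259ac5_co

/-- The inclusion of the integer lattice `ℤ²` in the real plane. -/
def emb (z : ℤ × ℤ) : ℝ × ℝ := ((z.1 : ℝ), (z.2 : ℝ))

/-- `ℓ` is a line of the real plane: a nonempty affine subspace whose direction is
one-dimensional. -/
def IsLine (ℓ : AffineSubspace ℝ (ℝ × ℝ)) : Prop :=
  (ℓ : Set (ℝ × ℝ)).Nonempty ∧ Module.finrank ℝ ℓ.direction = 1

/-- The finite set `F ⊂ ℤ²` is a convex lattice set: `F = conv(F) ∩ ℤ²`. -/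
def IsConvexLatticeSet (F : Finset (ℤ × ℤ)) : Prop :=
  (F : Set (ℤ × ℤ)) = {z | emb z ∈ convexHull ℝ (emb '' (F : Set (ℤ × ℤ)))}

/-- `F` belongs to the class `C_P`: it is a convex lattice set and it is disjoint from every
line passing through two distinct points of `P`. -/
def InClass (P F : Finset (ℤ × ℤ)) : Prop :=
  IsConvexLatticeSet F ∧
    ∀ p ∈ P, ∀ q ∈ P, p ≠ q → ∀ ℓ : AffineSubspace ℝ (ℝ × ℝ), IsLine ℓ → emb p ∈ ℓ → emb q ∈ ℓ →
      ∀ z ∈ F, emb z ∉ ℓ

/-- The number `|E ∩ ℓ|` of points of the lattice set `E` on `ℓ`. -/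
noncomputable def count (E : Finset (ℤ × ℤ)) (ℓ : AffineSubspace ℝ (ℝ × ℝ)) : ℕ :=
  Set.ncard {z : ℤ × ℤ | z ∈ E ∧ emb z ∈ ℓ}

/-- The discrete point X-rays of `E` and of `F` at `p` coincide. -/
def SameXray (p : ℤ × ℤ) (E F : Finset (ℤ × ℤ)) : Prop :=
  ∀ ℓ : AffineSubspace ℝ (ℝ × ℝ), IsLine ℓ → emb p ∈ ℓ → count E ℓ = count F ℓ

/-- Discrete point X-rays at `P` determine convex lattice sets. -/
def Determines (P : Finset (ℤ × ℤ)) : Prop :=
  ∀ F₁ F₂ : Finset (ℤ × ℤ), InClass P F₁ → InClass P F₂ →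
    (∀ p ∈ P, SameXray p F₁ F₂) → F₁ = F₂

/-! ### Auxiliary integer determinants -/

/-- The determinant of two integer vectors. -/
def cr (d e : ℤ × ℤ) : ℤ := d.1 * e.2 - d.2 * e.1

theorem emb_injective : Function.Injective emb := by
  intro a b h
  simp only [emb, Prod.mk.injEq, Int.cast_inj] at h
  exact Prod.ext h.1 h.2

/-- The same determinant for real vectors. -/
def crR (d e : ℝ × ℝ) : ℝ := d.1 * e.2 - d.2 * e.1

theorem crR_emb (d a b : ℤ × ℤ) : crR (emb d) (emb a - emb b) = ((cr d (a - b) : ℤ) : ℝ) := by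
  simp only [crR, emb, cr, Prod.fst_sub, Prod.snd_sub]
  push_cast
  ring

theorem emb_sub (a b : ℤ × ℤ) : emb (a - b) = emb a - emb b := by
  ext <;> simp [emb]

theorem crR_combo (d x y w : ℝ × ℝ) (a b : ℝ) (hab : a + b = 1) :
    crR d (a • x + b • y - w) = a * crR d (x - w) + b * crR d (y - w) := by
  have hb : b = 1 - a := by linarith
  subst hb
  simp only [crR, Prod.fst_sub, Prod.snd_sub, Prod.fst_add, Prod.snd_add, Prod.smul_fst,
    Prod.smul_snd, smul_eq_mul]
  ring

theorem convex_pos (d w : ℝ × ℝ) : Convex ℝ {z : ℝ × ℝ | 0 < crR d (z - w)} := by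
  intro x hx y hy a b ha hb hab
  simp only [Set.mem_ofPred_eq] at *
  rw [crR_combo d x y w a b hab]
  rcases ha.eq_or_lt with h | h
  · have : b = 1 := by linarith
    subst this
    rw [← h]
    linarith
  · have := mul_pos h hx
    have := mul_nonneg hb hy.le
    linarith

theorem convex_ext (d w : ℝ × ℝ) : Convex ℝ {z : ℝ × ℝ | z = w ∨ 0 < crR d (z - w)} := by
  intro x hx y hy a b ha hb hab
  simp only [Set.mem_ofPred_eq] at *
  rcases ha.eq_or_lt with h | h
  · have hb1 : b = 1 := by linarith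
    subst hb1
    rw [← h]
    simpa using hy
  rcases hb.eq_or_lt with h' | h'
  · have ha1 : a = 1 := by linarith
    subst ha1
    rw [← h']
    simpa using hx
  rcases hx with hx | hx <;> rcases hy with hy | hy
  · left
    rw [hx, hy, ← add_smul, hab, one_smul]
  · right
    rw [crR_combo d x y w a b hab, hx]
    have := mul_pos h' hy
    simp only [sub_self]
    have h0 : crR d 0 = 0 := by simp [crR]
    rw [h0]
    linarith
  · right
    rw [crR_combo d x y w a b hab, hy]
    have := mul_pos h hx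
    simp only [sub_self]
    have h0 : crR d 0 = 0 := by simp [crR]
    rw [h0]
    linarith
  · right
    rw [crR_combo d x y w a b hab]
    have := mul_pos h hx
    have := mul_pos h' hy
    linarith

theorem hull_pos {V : Set (ℤ × ℤ)} {d w : ℤ × ℤ} (h : ∀ v ∈ V, 0 < cr d (v - w)) :
    ∀ z ∈ convexHull ℝ (emb '' V), 0 < crR (emb d) (z - emb w) := by
  intro z hz
  have := convexHull_min (s := emb '' V) (t := {z : ℝ × ℝ | 0 < crR (emb d) (z - emb w)}) ?_
    (convex_pos _ _) hz
  · exact this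
  · rintro _ ⟨v, hv, rfl⟩
    simp only [Set.mem_ofPred_eq, crR_emb]
    exact_mod_cast h v hv

theorem hull_ext {V : Set (ℤ × ℤ)} {d w : ℤ × ℤ} (h : ∀ v ∈ V, v ≠ w → 0 < cr d (v - w)) :
    ∀ z ∈ convexHull ℝ (emb '' V), z = emb w ∨ 0 < crR (emb d) (z - emb w) := by
  intro z hz
  have := convexHull_min (s := emb '' V)
    (t := {z : ℝ × ℝ | z = emb w ∨ 0 < crR (emb d) (z - emb w)}) ?_ (convex_ext _ _) hz
  · exact this
  · rintro _ ⟨v, hv, rfl⟩
    simp only [Set.mem_ofPred_eq, crR_emb]
    by_cases hvw : v = w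
    · left; rw [hvw]
    · right; exact_mod_cast h v hv hvw

theorem hull_finite (V : Finset (ℤ × ℤ)) :
    {z : ℤ × ℤ | emb z ∈ convexHull ℝ (emb '' (V : Set (ℤ × ℤ)))}.Finite := by
  have hfin : (emb '' (V : Set (ℤ × ℤ))).Finite := (Finset.finite_toSet V).image _
  have hb : Bornology.IsBounded (convexHull ℝ (emb '' (V : Set (ℤ × ℤ)))) :=
    isBounded_convexHull.2 hfin.isBounded
  obtain ⟨R, hR⟩ := hb.exists_norm_le
  refine (Set.finite_Icc ((-⌈R⌉, -⌈R⌉) : ℤ × ℤ) (⌈R⌉, ⌈R⌉)).subset ?_
  intro z hz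
  have h := hR _ hz
  rw [Prod.norm_def] at h
  have h1 : ‖(emb z).1‖ ≤ R := le_trans (le_max_left _ _) h
  have h2 : ‖(emb z).2‖ ≤ R := le_trans (le_max_right _ _) h
  simp only [emb, Real.norm_eq_abs] at h1 h2
  have h1' := abs_le.1 h1
  have h2' := abs_le.1 h2
  have hc := Int.le_ceil R
  refine ⟨⟨?_, ?_⟩, ⟨?_, ?_⟩⟩
  · have : (-(⌈R⌉ : ℤ) : ℝ) ≤ (z.1 : ℝ) := by linarith
    exact_mod_cast this
  · have : (-(⌈R⌉ : ℤ) : ℝ) ≤ (z.2 : ℝ) := by linarith
    exact_mod_cast this
  · have : (z.1 : ℝ) ≤ (⌈R⌉ : ℤ) := by linarith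
    exact_mod_cast this
  · have : (z.2 : ℝ) ≤ (⌈R⌉ : ℤ) := by linarith
    exact_mod_cast this

theorem line_mem {ℓ : AffineSubspace ℝ (ℝ × ℝ)} {p v w : ℤ × ℤ} (hpv : v ≠ p)
    (hdet : cr (v - p) (w - p) = 0) (hp : emb p ∈ ℓ) (hv : emb v ∈ ℓ) : emb w ∈ ℓ := by
  have hdet' : ((v.1 : ℝ) - p.1) * ((w.2 : ℝ) - p.2) - ((v.2 : ℝ) - p.2) * ((w.1 : ℝ) - p.1) = 0 := by
    have := congrArg (Int.cast : ℤ → ℝ) hdet
    simpa [cr] using this
  have key : ∃ t : ℝ, emb w = AffineMap.lineMap (emb p) (emb v) t := by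
    by_cases h1 : v.1 = p.1
    · have h2 : v.2 ≠ p.2 := fun h2 => hpv (Prod.ext h1 h2)
      have h2' : (v.2 : ℝ) - p.2 ≠ 0 := by
        intro h
        apply h2
        have : (v.2 : ℝ) = p.2 := by linarith
        exact_mod_cast this
      refine ⟨((w.2 : ℝ) - p.2) / ((v.2 : ℝ) - p.2), ?_⟩
      have h1' : (v.1 : ℝ) = p.1 := by exact_mod_cast h1
      rw [h1'] at hdet'
      have hw : (w.1 : ℝ) - p.1 = 0 := by
        have : ((v.2 : ℝ) - p.2) * ((w.1 : ℝ) - p.1) = 0 := by linarith
        rcases mul_eq_zero.1 this with h | h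
        · exact absurd h h2'
        · exact h
      ext
      · simp only [emb, AffineMap.lineMap_apply, vsub_eq_sub, vadd_eq_add, Prod.fst_add,
          Prod.smul_fst, Prod.fst_sub, smul_eq_mul]
        rw [h1']
        linarith
      · simp only [emb, AffineMap.lineMap_apply, vsub_eq_sub, vadd_eq_add, Prod.snd_add,
          Prod.smul_snd, Prod.snd_sub, smul_eq_mul]
        field_simp
        ring
    · have h1' : (v.1 : ℝ) - p.1 ≠ 0 := by
        intro h
        apply h1
        have : (v.1 : ℝ) = p.1 := by linarith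
        exact_mod_cast this
      refine ⟨((w.1 : ℝ) - p.1) / ((v.1 : ℝ) - p.1), ?_⟩
      ext
      · simp only [emb, AffineMap.lineMap_apply, vsub_eq_sub, vadd_eq_add, Prod.fst_add,
          Prod.smul_fst, Prod.fst_sub, smul_eq_mul]
        field_simp
        ring
      · simp only [emb, AffineMap.lineMap_apply, vsub_eq_sub, vadd_eq_add, Prod.snd_add,
          Prod.smul_snd, Prod.snd_sub, smul_eq_mul]
        field_simp
        linarith
  obtain ⟨t, ht⟩ := key
  rw [ht]
  exact AffineMap.lineMap_mem t hp hv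

theorem line_collinear {ℓ : AffineSubspace ℝ (ℝ × ℝ)} (hℓ : IsLine ℓ) {p q z : ℤ × ℤ}
    (hpq : p ≠ q) (hp : emb p ∈ ℓ) (hq : emb q ∈ ℓ) (hz : emb z ∈ ℓ) :
    crR (emb (q - p)) (emb z - emb p) = 0 := by
  have h1 := hℓ.2
  have hd : emb q -ᵥ emb p ∈ ℓ.direction := AffineSubspace.vsub_mem_direction hq hp
  have he : emb z -ᵥ emb p ∈ ℓ.direction := AffineSubspace.vsub_mem_direction hz hp
  have hne : (⟨emb q -ᵥ emb p, hd⟩ : ℓ.direction) ≠ 0 := by
    intro h
    have h' : emb q -ᵥ emb p = 0 := by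
      have := congrArg Subtype.val h
      simpa using this
    rw [vsub_eq_zero_iff_eq] at h'
    exact hpq (emb_injective h').symm
  obtain ⟨c, hc⟩ := (finrank_eq_one_iff_of_nonzero' _ hne).1 h1 ⟨emb z -ᵥ emb p, he⟩
  have hc' : c • (emb q -ᵥ emb p) = emb z -ᵥ emb p := by
    have := congrArg Subtype.val hc
    simpa using this
  rw [emb_sub]
  simp only [vsub_eq_sub] at hc'
  rw [← hc']
  simp only [crR, Prod.smul_fst, Prod.smul_snd, smul_eq_mul]
  ring

/-- The switching lemma. The points `vp a` and `vm b` are the vertices of a strictly convex lattice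
polygon, and each `p k` is collinear with `vp a` and `vm (k - a)`. Then discrete point X-rays at any
subset of the `p k` do not determine convex lattice sets. -/
theorem switch {m : ℕ} [NeZero m] (hm2 : 2 ≤ m) (p vp vm : Fin m → ℤ × ℤ)
    (hcol : ∀ k a : Fin m, cr (vp a - p k) (vm (k - a) - p k) = 0)
    (hext₁ : ∀ a : Fin m, ∃ d : ℤ × ℤ,
      (∀ j, j ≠ a → 0 < cr d (vp j - vp a)) ∧ ∀ j, 0 < cr d (vm j - vp a))
    (hext₂ : ∀ a : Fin m, ∃ d : ℤ × ℤ,
      (∀ j, 0 < cr d (vp j - vm a)) ∧ ∀ j, j ≠ a → 0 < cr d (vm j - vm a))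
    (hside : ∀ k l : Fin m, k ≠ l →
      (∀ n, 0 < cr (p l - p k) (vp n - p k) ∧ 0 < cr (p l - p k) (vm n - p k)) ∨
      (∀ n, 0 < cr (p k - p l) (vp n - p l) ∧ 0 < cr (p k - p l) (vm n - p l)))
    (P : Finset (ℤ × ℤ)) (hP : P ⊆ Finset.univ.image p) : ¬ Determines P := by
  classical
  -- basic facts
  have hpvm : ∀ a b, vp a ≠ vm b := by
    intro a b hab
    obtain ⟨d, _, h2⟩ := hext₁ a
    have := h2 b
    rw [← hab] at this
    simp [cr] at this
  have hinjp : Function.Injective vp := by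
    intro a b hab
    by_contra hne
    obtain ⟨d, h1, _⟩ := hext₁ a
    have := h1 b (Ne.symm hne)
    rw [← hab] at this
    simp [cr] at this
  have hinjm : Function.Injective vm := by
    intro a b hab
    by_contra hne
    obtain ⟨d, _, h1⟩ := hext₂ a
    have := h1 b (Ne.symm hne)
    rw [← hab] at this
    simp [cr] at this
  -- p k is not a vertex
  have hother : ∀ k : Fin m, ∃ l : Fin m, k ≠ l := by
    intro k
    have : Nontrivial (Fin m) := Fin.nontrivial_iff_two_le.2 hm2
    obtain ⟨l, hl⟩ := exists_ne k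
    exact ⟨l, hl.symm⟩
  have hside' : ∀ k n, vp n ≠ p k ∧ vm n ≠ p k := by
    intro k n
    obtain ⟨l, hl⟩ := hother k
    rcases hside k l hl with h | h
    · obtain ⟨h1, h2⟩ := h n
      constructor
      · intro he
        rw [he] at h1
        simp [cr] at h1
      · intro he
        rw [he] at h2
        simp [cr] at h2
    · obtain ⟨h1, h2⟩ := h n
      constructor
      · intro he
        rw [he] at h1
        have : cr (p k - p l) (p k - p l) = 0 := by simp only [cr]; ring
        omega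
      · intro he
        rw [he] at h2
        have : cr (p k - p l) (p k - p l) = 0 := by simp only [cr]; ring
        omega
  set Vp : Finset (ℤ × ℤ) := Finset.univ.image vp with hVp
  set Vm : Finset (ℤ × ℤ) := Finset.univ.image vm with hVm
  have memVp : ∀ z, z ∈ Vp ↔ ∃ a, vp a = z := by intro z; simp [hVp]
  have memVm : ∀ z, z ∈ Vm ↔ ∃ a, vm a = z := by intro z; simp [hVm]
  set V : Finset (ℤ × ℤ) := Vp ∪ Vm with hV
  set C : Set (ℝ × ℝ) := convexHull ℝ (emb '' (V : Set (ℤ × ℤ))) with hC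
  set K : Finset (ℤ × ℤ) := (hull_finite V).toFinset with hK
  have memK : ∀ z, z ∈ K ↔ emb z ∈ C := by
    intro z
    simp [hK, hC]
  have hVK : ∀ v ∈ V, v ∈ K := by
    intro v hv
    rw [memK]
    exact subset_convexHull ℝ _ ⟨v, hv, rfl⟩
  -- disjointness from lines
  have hline : ∀ p' ∈ P, ∀ q' ∈ P, p' ≠ q' → ∀ ℓ : AffineSubspace ℝ (ℝ × ℝ), IsLine ℓ →
      emb p' ∈ ℓ → emb q' ∈ ℓ → ∀ z ∈ K, emb z ∉ ℓ := by
    intro p' hp' q' hq' hne ℓ hℓ h1 h2 z hz hzℓ
    obtain ⟨k, -, hk⟩ := Finset.mem_image.1 (hP hp')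
    obtain ⟨l, -, hl⟩ := Finset.mem_image.1 (hP hq')
    have hkl : k ≠ l := by
      rintro rfl
      exact hne (hk.symm.trans hl)
    rw [memK] at hz
    rcases hside k l hkl with h | h
    · have hpos := hull_pos (V := (V : Set (ℤ × ℤ))) (d := q' - p') (w := p') (by
        intro v hv
        have hv' : v ∈ Vp ∨ v ∈ Vm := by
          have : v ∈ V := hv
          rw [hV] at this
          exact Finset.mem_union.1 this
        rw [← hk, ← hl]
        rcases hv' with hv' | hv'
        · obtain ⟨a, ha⟩ := (memVp v).1 hv'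
          rw [← ha]
          exact (h a).1
        · obtain ⟨a, ha⟩ := (memVm v).1 hv'
          rw [← ha]
          exact (h a).2) (emb z) hz
      have := line_collinear hℓ hne h1 h2 hzℓ
      linarith
    · have hpos := hull_pos (V := (V : Set (ℤ × ℤ))) (d := p' - q') (w := q') (by
        intro v hv
        have hv' : v ∈ Vp ∨ v ∈ Vm := by
          have : v ∈ V := hv
          rw [hV] at this
          exact Finset.mem_union.1 this
        rw [← hk, ← hl]
        rcases hv' with hv' | hv'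
        · obtain ⟨a, ha⟩ := (memVp v).1 hv'
          rw [← ha]
          exact (h a).1
        · obtain ⟨a, ha⟩ := (memVm v).1 hv'
          rw [← ha]
          exact (h a).2) (emb z) hz
      have := line_collinear hℓ hne.symm h2 h1 hzℓ
      linarith
  -- removing a set of vertices keeps a convex lattice set
  have hconv : ∀ U : Finset (ℤ × ℤ), U ⊆ V → IsConvexLatticeSet (K \ U) := by
    intro U hU
    apply Set.Subset.antisymm
    · intro z hz
      exact subset_convexHull ℝ _ ⟨z, hz, rfl⟩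
    · intro z hz
      simp only [Set.mem_ofPred_eq] at hz
      have hsub : emb '' ((K \ U : Finset (ℤ × ℤ)) : Set (ℤ × ℤ)) ⊆ C := by
        rintro _ ⟨y, hy, rfl⟩
        have hy' : y ∈ K \ U := hy
        exact (memK y).1 (Finset.mem_sdiff.1 hy').1
      have hzC : emb z ∈ C := convexHull_min hsub (convex_convexHull ℝ _) hz
      have hzK : z ∈ K := (memK z).2 hzC
      have hzU : z ∉ U := by
        intro hzU
        have hzV := hU hzU
        -- exposing functional at z
        have hex : ∃ d : ℤ × ℤ, ∀ v ∈ V, v ≠ z → 0 < cr d (v - z) := by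
          rw [hV, Finset.mem_union] at hzV
          rcases hzV with hzV | hzV
          · obtain ⟨a, ha⟩ := (memVp z).1 hzV
            obtain ⟨d, h1, h2⟩ := hext₁ a
            refine ⟨d, ?_⟩
            intro v hv hvz
            rw [hV, Finset.mem_union] at hv
            rcases hv with hv | hv
            · obtain ⟨b, hb⟩ := (memVp v).1 hv
              rw [← ha, ← hb]
              apply h1
              rintro rfl
              exact hvz (hb.symm.trans ha)
            · obtain ⟨b, hb⟩ := (memVm v).1 hv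
              rw [← ha, ← hb]
              exact h2 b
          · obtain ⟨a, ha⟩ := (memVm z).1 hzV
            obtain ⟨d, h1, h2⟩ := hext₂ a
            refine ⟨d, ?_⟩
            intro v hv hvz
            rw [hV, Finset.mem_union] at hv
            rcases hv with hv | hv
            · obtain ⟨b, hb⟩ := (memVp v).1 hv
              rw [← ha, ← hb]
              exact h1 b
            · obtain ⟨b, hb⟩ := (memVm v).1 hv
              rw [← ha, ← hb]
              apply h2
              rintro rfl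
              exact hvz (hb.symm.trans ha)
        obtain ⟨d, hd⟩ := hex
        have hpos : ∀ y ∈ ((K \ U : Finset (ℤ × ℤ)) : Set (ℤ × ℤ)), 0 < cr d (y - z) := by
          intro y hy
          have hy' : y ∈ K \ U := hy
          rw [Finset.mem_sdiff, memK] at hy'
          rcases hull_ext (V := (V : Set (ℤ × ℤ))) (d := d) (w := z) (fun v hv => hd v hv)
            (emb y) hy'.1 with h | h
          · exact absurd (emb_injective h ▸ hzU) hy'.2
          · rw [crR_emb] at h
            exact_mod_cast h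
        have := hull_pos hpos (emb z) hz
        simp [crR] at this
      exact Finset.mem_coe.2 (Finset.mem_sdiff.2 ⟨hzK, hzU⟩)
  have hVpV : Vp ⊆ V := Finset.subset_union_left
  have hVmV : Vm ⊆ V := Finset.subset_union_right
  intro hdet
  have heq := hdet (K \ Vm) (K \ Vp)
    ⟨hconv Vm hVmV, fun p' hp' q' hq' hne ℓ hℓ h1 h2 z hz =>
      hline p' hp' q' hq' hne ℓ hℓ h1 h2 z (Finset.mem_sdiff.1 hz).1⟩
    ⟨hconv Vp hVpV, fun p' hp' q' hq' hne ℓ hℓ h1 h2 z hz =>
      hline p' hp' q' hq' hne ℓ hℓ h1 h2 z (Finset.mem_sdiff.1 hz).1⟩ ?_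
  · -- contradiction
    have h0 : vp 0 ∈ K \ Vm := by
      rw [Finset.mem_sdiff]
      refine ⟨hVK _ (hVpV ((memVp _).2 ⟨0, rfl⟩)), ?_⟩
      intro h
      obtain ⟨b, hb⟩ := (memVm _).1 h
      exact hpvm 0 b hb.symm
    rw [heq, Finset.mem_sdiff] at h0
    exact h0.2 ((memVp _).2 ⟨0, rfl⟩)
  · -- equal X-rays
    intro p' hp' ℓ hℓ hpℓ
    obtain ⟨k, -, hk⟩ := Finset.mem_image.1 (hP hp')
    subst hk
    have hiff : ∀ a, emb (vp a) ∈ ℓ ↔ emb (vm (k - a)) ∈ ℓ := by
      intro a
      constructor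
      · intro h
        exact line_mem (hside' k a).1 (hcol k a) hpℓ h
      · intro h
        refine line_mem (hside' k (k - a)).2 ?_ hpℓ h
        have := hcol k a
        simp only [cr] at this ⊢
        linarith
    have hex : ∀ z ∈ Vp, ∃ a, vp a = z := fun z hz => (memVp z).1 hz
    choose! ix hix using hex
    unfold count
    refine Set.ncard_congr (fun z _ => if z ∈ Vp then vm (k - ix z) else z) ?_ ?_ ?_
    · rintro z ⟨hz, hzℓ⟩
      rw [Finset.mem_sdiff] at hz
      by_cases hzp : z ∈ Vp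
      · simp only [hzp, if_true]
        refine ⟨?_, ?_⟩
        · rw [Finset.mem_sdiff]
          refine ⟨hVK _ (hVmV ((memVm _).2 ⟨_, rfl⟩)), ?_⟩
          intro h
          obtain ⟨b, hb⟩ := (memVp _).1 h
          exact hpvm _ _ hb
        · rw [← hiff, hix z hzp]
          exact hzℓ
      · simp only [hzp, if_false]
        refine ⟨?_, hzℓ⟩
        rw [Finset.mem_sdiff]
        exact ⟨hz.1, hzp⟩
    · rintro z y ⟨hz, hzℓ⟩ ⟨hy, hyℓ⟩ hzy
      rw [Finset.mem_sdiff] at hz hy
      by_cases hzp : z ∈ Vp <;> by_cases hyp : y ∈ Vp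
      · simp only [hzp, hyp, if_true] at hzy
        have h1 := hinjm hzy
        have h2 : ix z = ix y := by
          have := congrArg (fun t => k - t) h1
          simpa using this
        rw [← hix z hzp, ← hix y hyp, h2]
      · simp only [hzp, hyp, if_true, if_false] at hzy
        exact absurd ((memVm y).2 ⟨_, hzy⟩) hy.2
      · simp only [hzp, hyp, if_true, if_false] at hzy
        exact absurd ((memVm z).2 ⟨_, hzy.symm⟩) hz.2
      · simpa only [hzp, hyp, if_false] using hzy
    · rintro y ⟨hy, hyℓ⟩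
      rw [Finset.mem_sdiff] at hy
      by_cases hym : y ∈ Vm
      · obtain ⟨b, hb⟩ := (memVm y).1 hym
        have hmem : vp (k - b) ∈ Vp := (memVp _).2 ⟨_, rfl⟩
        have hnm : vp (k - b) ∉ Vm := by
          intro h
          obtain ⟨c, hc⟩ := (memVm _).1 h
          exact hpvm _ _ hc.symm
        refine ⟨vp (k - b), ⟨?_, ?_⟩, ?_⟩
        · rw [Finset.mem_sdiff]
          exact ⟨hVK _ (hVpV hmem), hnm⟩
        · rw [hiff]
          have : k - (k - b) = b := by abel
          rw [this, hb]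
          exact hyℓ
        · simp only [hmem, if_true]
          have h1 : ix (vp (k - b)) = k - b := hinjp (hix _ hmem)
          rw [h1]
          have : k - (k - b) = b := by abel
          rw [this, hb]
      · refine ⟨y, ⟨?_, hyℓ⟩, ?_⟩
        · rw [Finset.mem_sdiff]
          exact ⟨hy.1, hym⟩
        · simp only [hy.2, if_false]

end Pool.Agent.Lib.MP_259ac5_co
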